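import Pool.Agent.T2H01.QI.Asm2

/-!
# MP_832dec_an, Q1: quantitative Talenti comparison for the planar Robin problem

For every `β, m > 0` there is `C > 0` with `‖v - u♯‖_∞ ≥ C α(Ω)^p` for all bounded Lipschitz open sets
`Ω` of area `m`, for every exponent `p > 1`. The case `p = 2` is Q1; the exponent `2` is not optimal.
-/

set_option autoImplicit false

noncomputable section

open MeasureTheory Metric Set Filter Topology
open scoped NNReal ENNReal

namespace Pool.Agent.Results.MP_832dec_an.EveryExponentAboveOne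

open Pool.Agent.T2H01.QI

/-- **Answer to Q1, with every exponent `p > 1` in place of `2`.** -/
theorem result :
    (∀ β R : ℝ, 0 < β → 0 < R → ContDiff ℝ (⊤ : ℕ∞) (vsol β R) ∧
      (∀ x, ∑ i : Fin 2, fderiv ℝ (fun y => fderiv ℝ (vsol β R) y (EuclideanSpace.single i 1)) x
        (EuclideanSpace.single i 1) = -1) ∧
      ∀ x : E2, ‖x‖ = R → fderiv ℝ (vsol β R) x (R⁻¹ • x) + β * vsol β R x = 0) ∧
    ∀ β m p : ℝ, 0 < β → 0 < m → 1 < p → ∃ C : ℝ, 0 < C ∧ ∀ (Ω : Set E2) (u : E2 → ℝ), IsLip Ω →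
      volume.real Ω = m → IsRobin Ω β u →
        ENNReal.ofReal (C * asym Ω ^ p) ≤
          eLpNorm (fun x => vsol β (rad Ω) x - usharp Ω u x) ⊤ (volume.restrict (ball 0 (rad Ω))) :=
  ⟨Asm.aVSC, Asm.aALL2⟩

end Pool.Agent.Results.MP_832dec_an.EveryExponentAboveOne
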